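import Mathlib
import Pool.Agent.H.MP_20dafb_an.A

namespace Pool.Agent.Results.MP_20dafb_an.Root

open Pool.Agent.H.MP_20dafb_an

variable {H : Type} [NormedAddCommGroup H] [InnerProductSpace ℂ H] [CompleteSpace H]

/-- joint hyponormality -/
def Hypo {d : ℕ} (T : Fin d → H →L[ℂ] H) : Prop :=
  ∀ x : Fin d → H,
    0 ≤ (∑ i, ∑ j, inner ℂ (x i) ((star (T j) * T i - T i * star (T j)) (x j))).re

/-- spherical quasinormality -/
def SphQN {ι : Type} [Fintype ι] (T : ι → H →L[ℂ] H) : Prop :=
  ∀ i, Commute (T i) (∑ j, star (T j) * T j)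

/-- the `n`-th power of a tuple: all words of length `n` -/
def power {d : ℕ} (T : Fin d → H →L[ℂ] H) (n : ℕ) : (Fin n → Fin d) → H →L[ℂ] H :=
  fun w => (List.ofFn fun k => T (w k)).prod

noncomputable def Θ {d : ℕ} (T : Fin d → H →L[ℂ] H) (X : H →L[ℂ] H) : H →L[ℂ] H :=
  ∑ i, star (T i) * X * T i

lemma words {d : ℕ} (T : Fin d → H →L[ℂ] H) (n : ℕ) (X : H →L[ℂ] H) :
    ∑ w, star (power T n w) * X * power T n w = (Θ T)^[n] X := by
  induction n generalizing X with
  | zero => simp [power]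
  | succ n ih =>
    rw [Function.iterate_succ_apply, ← ih, ← (Fin.consEquiv fun _ => Fin d).sum_comp,
      Fintype.sum_prod_type_right]
    refine Finset.sum_congr rfl fun w _ => ?_
    simp [power, Θ, Finset.mul_sum, Finset.sum_mul, mul_assoc, List.ofFn_succ]

lemma q_Θ {d : ℕ} (T : Fin d → H →L[ℂ] H) (X : H →L[ℂ] H) (x y : H) :
    q (Θ T X) x y = ∑ i, q X (T i x) (T i y) := by
  simp only [Θ, q_sum, q_conj]

theorem result {H : Type} [NormedAddCommGroup H] [InnerProductSpace ℂ H] [CompleteSpace H]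
    {d : ℕ} (T : Fin d → H →L[ℂ] H) (hc : ∀ i j, Commute (T i) (T j)) (hh : Hypo T)
    (n : ℕ) (hn : 1 ≤ n) (hq : SphQN (power T n)) : SphQN T := by
  let A : ℕ → H →L[ℂ] H := fun k => (Θ T)^[k] 1
  have hA : ∀ k, A (k + 1) = Θ T (A k) := fun k => Function.iterate_succ_apply' _ _ _
  have hpos : ∀ k, 0 ≤ A k := by
    intro k
    induction k with
    | zero => exact zero_le_one
    | succ k ih => exact hA k ▸ Finset.sum_nonneg fun i _ => star_left_conjugate_nonneg ih _
  have hsa : ∀ k, IsSelfAdjoint (A k) := fun k => .of_nonneg (hpos k)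
  have h1 : A 1 = ∑ j, star (T j) * T j := by simp [A, Θ]
  have hB : ∀ k, Blk (A k) (A (k + 1)) (A (k + 2)) := by
    intro k
    induction k with
    | zero =>
      intro x y
      have a1 := hh fun j => T j y
      have a2 : (∑ i, ∑ j, inner ℂ (T i y) ((star (T j) * T i - T i * star (T j)) (T j y))).re =
          q (A 2 - star (A 1) * 1 * A 1) y y := by
        rw [hA 1, (hsa 1).star_eq, h1, mul_one, Θ, Finset.sum_mul, ← Finset.sum_sub_distrib, q_sum,
          Complex.re_sum]
        refine Finset.sum_congr rfl fun i _ => ?_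
        rw [Finset.mul_sum, Finset.mul_sum, Finset.sum_mul, ← Finset.sum_sub_distrib, q_sum,
          Complex.re_sum]
        refine Finset.sum_congr rfl fun j _ => ?_
        refine (q_conj _ (T i) (T j) y y).symm.trans ?_
        congr 1
        simp only [mul_sub, sub_mul, mul_assoc, (hc i j).eq]
      rw [a2, q_sub, q_conj, q_one] at a1
      have a3 := norm_add_sq (𝕜 := ℂ) x (A 1 y)
      have a4 : q (A 0) x x = ‖x‖ ^ 2 := q_one x
      have a5 : q (A 1) x y = RCLike.re (inner ℂ x (A 1 y)) := rfl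
      nlinarith [sq_nonneg ‖x + A 1 y‖]
    | succ k ih =>
      intro x y
      rw [hA k, hA (k + 1), hA (k + 2), q_Θ, q_Θ, q_Θ, Finset.mul_sum, ← Finset.sum_add_distrib,
        ← Finset.sum_add_distrib]
      exact Finset.sum_nonneg fun i _ => ih _ _
  have hn1 : A n = ∑ w, star (power T n w) * power T n w := by simp [A, ← words]
  have hm : ∀ m, A (n * m) = A n ^ m := by
    intro m
    induction m with
    | zero => simp [A]
    | succ m ih =>
      have : A (n * (m + 1)) = (Θ T)^[n] (A (n * m)) := by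
        rw [mul_add, mul_one, add_comm]; exact Function.iterate_add_apply _ _ _ _
      rw [this, ih, ← words, pow_succ', hn1, Finset.sum_mul]
      refine Finset.sum_congr rfl fun w _ => ?_
      rw [mul_assoc, mul_assoc, ((hq w).pow_right m).eq]
  obtain ⟨D, hD, hDn⟩ : ∃ D : H →L[ℂ] H, 0 ≤ D ∧ D ^ (2 * n) = A n := by
    refine ⟨cfc (fun t : ℝ => t ^ (((2 * n : ℕ) : ℝ)⁻¹)) (A n),
      cfc_nonneg fun t ht => Real.rpow_nonneg (spectrum_nonneg_of_nonneg (hpos n) ht) _, ?_⟩
    rw [← cfc_pow _ _ _ (Real.continuous_rpow_const (by positivity)).continuousOn (hsa n)]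
    refine (cfc_congr fun t ht => ?_).trans (cfc_id' ℝ (A n) (hsa n))
    exact Real.rpow_inv_natCast_pow (spectrum_nonneg_of_nonneg (hpos n) ht) (by omega)
  have hDs : IsSelfAdjoint D := .of_nonneg hD
  have hup : ∀ k x, q (A k) x x ≤ q ((D ^ 2) ^ k) x x := fun k x => by
    refine (upper hsa hB hD hn (fun m => by rw [hm, ← hDn, ← pow_mul, mul_assoc]) k x).trans ?_
    rw [← q_one, ← q_conj, (hDs.pow k).star_eq, mul_one, ← pow_add, ← pow_mul, two_mul]
  have hlow : ∀ j k, k + 1 + j = n * 3 → A (k + 1) = (D ^ 2) ^ (k + 1) := by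
    intro j
    induction j with
    | zero => intro k hk; rw [add_zero] at hk; rw [hk, hm, ← hDn, ← pow_mul, ← pow_mul, mul_assoc]
    | succ j ih =>
      intro k hk
      refine down (Z := A (k + 3)) (hsa _) (hDs.pow 2) (ih (k + 1) (by omega) ▸ hB (k + 1))
        (fun x => ?_) (hup _) (hup _)
      exact ((ContinuousLinearMap.nonneg_iff_isPositive _).1 (hpos _)).re_inner_nonneg_right x
  have e1 := hlow (n * 3 - 1) 0 (by omega)
  have e2 := hlow (n * 3 - 2) 1 (by omega)
  have e3 := hlow (n * 3 - 3) 2 (by omega)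
  rw [zero_add, pow_one] at e1
  rw [← e1] at e2 e3
  have f2 : ∑ i, star (T i) * A 1 * T i = A 1 ^ 2 := (hA 1).symm.trans e2
  have f3 : ∑ i, star (T i) * A 1 ^ 2 * T i = A 1 ^ 3 := by rw [← e3, hA 2, e2]; rfl
  have hs : ∑ i, star (A 1 * T i - T i * A 1) * (A 1 * T i - T i * A 1) = 0 := by
    have : ∀ i, star (A 1 * T i - T i * A 1) * (A 1 * T i - T i * A 1) =
        star (T i) * A 1 ^ 2 * T i - star (T i) * A 1 * T i * A 1 - A 1 * (star (T i) * A 1 * T i) +
          A 1 * (star (T i) * T i) * A 1 := fun i => by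
      rw [star_sub, star_mul, star_mul, (hsa 1).star_eq]
      noncomm_ring
    simp only [this, Finset.sum_add_distrib, Finset.sum_sub_distrib, ← Finset.sum_mul,
      ← Finset.mul_sum, f2, f3, ← h1]
    noncomm_ring
  intro i
  have := (Finset.sum_eq_zero_iff_of_nonneg fun i _ => star_mul_self_nonneg _).1 hs i
    (Finset.mem_univ i)
  rw [CStarRing.star_mul_self_eq_zero_iff, sub_eq_zero] at this
  rw [← h1]
  exact this.symm

end Pool.Agent.Results.MP_20dafb_an.Root
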